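import Mathlib

namespace Pool.Agent.Results.MP_391eb1_al.SectionRatio

/-- The set `LCM(G)` of all `x` such that `o(xⁿ y)` divides `lcm(o(xⁿ), o(y))` for all positive
integers `n` and all `y`. -/
def LCMset (G : Type) [Group G] : Set G :=
  {x | ∀ n : ℕ, 0 < n → ∀ y : G, orderOf (x ^ n * y) ∣ Nat.lcm (orderOf (x ^ n)) (orderOf y)}

/-- `G` is an LCM-group if `LCM(G) = G`. -/
def IsLCM (G : Type) [Group G] : Prop := LCMset G = Set.univ

/-- The ratio `lcm(G) = |LCM(G)| / |G|`. -/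
noncomputable def ratio (G : Type) [Group G] : ℝ := (Nat.card (LCMset G) : ℝ) / Nat.card G

/-- `lcm*(G)`: the minimum of `lcm(H/K)` over all sections `H/K` of `G` (for a finite group this
set of real numbers is finite and nonempty, so its infimum is its minimum). -/
noncomputable def lcmStar (G : Type) [Group G] : ℝ :=
  sInf {r : ℝ | ∃ (H : Subgroup G) (K : Subgroup H) (_ : K.Normal), r = ratio (H ⧸ K)}

section
set_option linter.unusedSectionVars false
variable {p : ℕ} [hp : Fact p.Prime] {S : Type} [Group S]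

theorem not_mem_LCMset {k : ℕ} {x y : S} (hx : x ^ (p ^ k) = 1) (hy : y ^ (p ^ k) = 1)
    (hxy : (x * y) ^ (p ^ k) ≠ 1) : x ∉ LCMset S := by
  intro h
  have h1 := h 1 one_pos y
  rw [pow_one] at h1
  have h2 : Nat.lcm (orderOf x) (orderOf y) ∣ p ^ k :=
    Nat.lcm_dvd (orderOf_dvd_of_pow_eq_one hx) (orderOf_dvd_of_pow_eq_one hy)
  exact hxy (orderOf_dvd_iff_pow_eq_one.1 (h1.trans h2))

theorem isLCM_of_closed (hS : IsPGroup p S)
    (h : ∀ k : ℕ, ∀ a b : S, a ^ (p ^ k) = 1 → b ^ (p ^ k) = 1 → (a * b) ^ (p ^ k) = 1) :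
    IsLCM S := by
  rw [IsLCM, Set.eq_univ_iff_forall]
  intro x n _ y
  obtain ⟨i, hi⟩ := IsPGroup.iff_orderOf.1 hS (x ^ n)
  obtain ⟨j, hj⟩ := IsPGroup.iff_orderOf.1 hS y
  have hk : orderOf (x ^ n * y) ∣ p ^ (max i j) := by
    apply orderOf_dvd_of_pow_eq_one
    apply h
    · exact orderOf_dvd_iff_pow_eq_one.1 (hi ▸ pow_dvd_pow p (le_max_left i j))
    · exact orderOf_dvd_iff_pow_eq_one.1 (hj ▸ pow_dvd_pow p (le_max_right i j))
  refine hk.trans ?_
  rcases le_total i j with hij | hij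
  · rw [max_eq_right hij, ← hj]; exact Nat.dvd_lcm_right _ _
  · rw [max_eq_left hij, ← hi]; exact Nat.dvd_lcm_left _ _

theorem exists_max {n : ℕ} [Finite S] (hcard : Nat.card S = p ^ (n + 1)) (a : S)
    (hne : Subgroup.zpowers a ≠ ⊤) :
    ∃ M : Subgroup S, a ∈ M ∧ Nat.card M = p ^ n ∧ M.Normal := by
  obtain ⟨i, hi, hi'⟩ := (Nat.dvd_prime_pow hp.out).1
    (hcard ▸ Subgroup.card_subgroup_dvd_card (Subgroup.zpowers a))
  have hin : i ≤ n := by
    by_contra hcon
    have : i = n + 1 := by omega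
    apply hne
    apply Subgroup.eq_top_of_card_eq
    rw [hi', this, hcard]
  obtain ⟨M, hM, haM⟩ := Sylow.exists_subgroup_card_pow_prime_le p
    (hcard ▸ pow_dvd_pow p (Nat.le_succ n)) (Subgroup.zpowers a) hi' hin
  refine ⟨M, haM (Subgroup.mem_zpowers a), hM, ?_⟩
  apply Subgroup.normal_of_index_eq_minFac_card
  have h1 := M.card_mul_index
  rw [hM, hcard, pow_succ] at h1
  have h2 : M.index = p := Nat.eq_of_mul_eq_mul_left (pow_pos hp.out.pos n) h1
  rw [h2, hcard, hp.out.pow_minFac (Nat.succ_ne_zero n)]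

theorem exists_bad {n : ℕ} [Finite S] (hcard : Nat.card S = p ^ (n + 1)) (M : Subgroup S)
    (hM : Nat.card M = p ^ n) [M.Normal] {k : ℕ} (hMk : ∀ y ∈ M, y ^ (p ^ k) = 1)
    {g : S} (hg : g ∉ M) (hgk : g ^ (p ^ k) ≠ 1) {x : S} (hx : x ∉ M) (hxk : x ^ (p ^ k) = 1) :
    x ∉ LCMset S := by
  have hidx : Nat.card (S ⧸ M) = p := by
    have h1 := M.card_mul_index
    rw [hM, hcard, pow_succ] at h1
    exact Nat.eq_of_mul_eq_mul_left (pow_pos hp.out.pos n) h1
  have hg1 : (QuotientGroup.mk g : S ⧸ M) ≠ 1 := by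
    rwa [Ne, QuotientGroup.eq_one_iff]
  have hx1 : (QuotientGroup.mk x : S ⧸ M) ≠ 1 := by
    rwa [Ne, QuotientGroup.eq_one_iff]
  obtain ⟨j, hj⟩ := Subgroup.mem_zpowers_iff.1
    (mem_zpowers_of_prime_card hidx hg1 (g' := (QuotientGroup.mk x : S ⧸ M)))
  have hpj : ¬ (p : ℤ) ∣ j := by
    rintro ⟨i, rfl⟩
    apply hx1
    rw [← hj, zpow_mul, zpow_natCast, ← hidx, pow_card_eq_one', one_zpow]
  have hmem : x⁻¹ * g ^ j ∈ M := by
    rw [← QuotientGroup.eq, ← hj]
    rfl
  refine not_mem_LCMset hxk (hMk _ hmem) ?_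
  rw [mul_inv_cancel_left]
  intro h
  apply hgk
  obtain ⟨s, _, hs⟩ := (Nat.dvd_prime_pow hp.out).1 (hcard ▸ orderOf_dvd_natCard g)
  have h1 : (orderOf g : ℤ) ∣ j * (p ^ k : ℕ) := by
    rw [orderOf_dvd_iff_zpow_eq_one, zpow_mul, zpow_natCast, h]
  have hcop : IsCoprime (orderOf g : ℤ) j := by
    rw [hs]
    push_cast
    exact IsCoprime.pow_left ((Prime.coprime_iff_not_dvd (Nat.prime_iff_prime_int.1 hp.out)).2 hpj)
  have h2 := hcop.dvd_of_dvd_mul_left h1
  exact orderOf_dvd_iff_pow_eq_one.1 (by exact_mod_cast h2)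

theorem main [Finite S] (hS : IsPGroup p S)
    (hmin : ∀ M : Subgroup S, M ≠ ⊤ → ∀ k : ℕ, ∀ a ∈ M, ∀ b ∈ M, a ^ (p ^ k) = 1 →
      b ^ (p ^ k) = 1 → (a * b) ^ (p ^ k) = 1)
    {k : ℕ} {a b : S} (ha : a ^ (p ^ k) = 1) (hb : b ^ (p ^ k) = 1)
    (hab : (a * b) ^ (p ^ k) ≠ 1) :
    p ^ 2 * Nat.card (LCMset S) + 2 * (p - 1) * Nat.card S ≤ p ^ 2 * Nat.card S := by
  classical
  have hgen : ∀ M : Subgroup S, a ∈ M → b ∈ M → M = ⊤ := by
    intro M h1 h2
    by_contra hne
    exact hab (hmin M hne k a h1 b h2 ha hb)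
  obtain ⟨m, hm⟩ := IsPGroup.iff_card.1 hS
  have hm0 : m ≠ 0 := by
    rintro rfl
    rw [pow_zero, Nat.card_eq_one_iff_unique] at hm
    obtain ⟨hsub, _⟩ := hm
    exact hab (Subsingleton.elim _ _)
  obtain ⟨n, rfl⟩ : ∃ n, m = n + 1 := ⟨m - 1, by omega⟩
  -- `S` is not cyclic
  have hncyc : ∀ g : S, Subgroup.zpowers g ≠ ⊤ := by
    intro g hg
    have hc : Commute a b := by
      obtain ⟨i, hi⟩ := Subgroup.mem_zpowers_iff.1 (hg ▸ Subgroup.mem_top a)
      obtain ⟨j, hj⟩ := Subgroup.mem_zpowers_iff.1 (hg ▸ Subgroup.mem_top b)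
      rw [← hi, ← hj]
      exact ((Commute.refl g).zpow_left i).zpow_right j
    apply hab
    rw [hc.mul_pow, ha, hb, one_mul]
  obtain ⟨A, haA, hA, hAn⟩ := exists_max hm a (hncyc a)
  obtain ⟨B, hbB, hB, hBn⟩ := exists_max hm b (hncyc b)
  have hlt : p ^ n < p ^ (n + 1) := Nat.pow_lt_pow_right hp.out.one_lt (Nat.lt_succ_self n)
  have hAtop : A ≠ ⊤ := by
    rintro rfl
    rw [Subgroup.card_top, hm] at hA
    omega
  have hBtop : B ≠ ⊤ := by
    rintro rfl
    rw [Subgroup.card_top, hm] at hB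
    omega
  have hbA : b ∉ A := fun h => hAtop (hgen A haA h)
  have haB : a ∉ B := fun h => hBtop (hgen B h hbB)
  have habA : a * b ∉ A := fun h => hbA ((A.mul_mem_cancel_left haA).1 h)
  have habB : a * b ∉ B := fun h => haB ((B.mul_mem_cancel_right hbB).1 h)
  -- the subgroups of elements of `A`, `B` killed by `p ^ k`
  let tor : ∀ M : Subgroup S, M ≠ ⊤ → Subgroup S := fun M hM =>
    { carrier := {x | x ∈ M ∧ x ^ (p ^ k) = 1}
      mul_mem' := fun {x y} hx hy => ⟨M.mul_mem hx.1 hy.1, hmin M hM k x hx.1 y hy.1 hx.2 hy.2⟩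
      one_mem' := ⟨M.one_mem, one_pow _⟩
      inv_mem' := fun {x} hx => ⟨M.inv_mem hx.1, by rw [inv_pow, hx.2, inv_one]⟩ }
  have htor : ∀ M hM x, x ∈ tor M hM ↔ x ∈ M ∧ x ^ (p ^ k) = 1 := fun _ _ _ => Iff.rfl
  have hnorm : (tor A hAtop).Normal := by
    constructor
    intro x hx g
    refine ⟨hAn.conj_mem x hx.1 g, ?_⟩
    rw [conj_pow, hx.2]; simp
  have hsup : ∀ x : S, ∃ u ∈ tor A hAtop, ∃ v ∈ tor B hBtop, u * v = x := by
    intro x
    have h1 : tor A hAtop ⊔ tor B hBtop = ⊤ :=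
      hgen _ ((le_sup_left : tor A hAtop ≤ _) ⟨haA, ha⟩) ((le_sup_right : tor B hBtop ≤ _) ⟨hbB, hb⟩)
    have h2 : x ∈ tor A hAtop ⊔ tor B hBtop := by rw [h1]; trivial
    exact Subgroup.mem_sup_of_normal_left.1 h2
  have hAk : ∀ x ∈ A, x ^ (p ^ k) = 1 := by
    intro x hx
    obtain ⟨u, hu, v, hv, rfl⟩ := hsup x
    have hvA : v ∈ A := (A.mul_mem_cancel_left hu.1).1 hx
    exact hmin A hAtop k u hu.1 v hvA hu.2 hv.2
  have hBk : ∀ x ∈ B, x ^ (p ^ k) = 1 := by
    intro x hx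
    obtain ⟨u, hu, v, hv, rfl⟩ := hsup x
    have huB : u ∈ B := (B.mul_mem_cancel_right hv.1).1 hx
    exact hmin B hBtop k u huB v hv.1 hu.2 hv.2
  -- the elements in exactly one of `A`, `B` are bad
  have hbad1 : ∀ x ∈ A, x ∉ B → x ∉ LCMset S := fun x hxA hxB =>
    exists_bad hm B hB hBk habB hab hxB (hAk x hxA)
  have hbad2 : ∀ x ∈ B, x ∉ A → x ∉ LCMset S := fun x hxB hxA =>
    exists_bad hm A hA hAk habA hab hxA (hBk x hxB)
  -- counting
  have hInt : p * Nat.card (A ⊓ B : Subgroup S) ≤ p ^ n := by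
    have h1 : A ⊓ B < A := by
      refine lt_of_le_of_ne inf_le_left (fun h => ?_)
      have h2 : a ∈ A ⊓ B := by rw [h]; exact haA
      exact haB h2.2
    obtain ⟨i, hi, hi'⟩ := (Nat.dvd_prime_pow hp.out).1
      (hA ▸ Subgroup.card_dvd_of_le h1.le : Nat.card (A ⊓ B : Subgroup S) ∣ p ^ n)
    have hin : i ≠ n := by
      rintro rfl
      exact h1.ne (Subgroup.eq_of_le_of_card_ge h1.le (by rw [hA, hi']))
    rw [hi', ← pow_succ']
    exact Nat.pow_le_pow_right hp.out.pos (by omega)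
  have c1 : ((A : Set S) \ B).ncard + Nat.card (A ⊓ B : Subgroup S) = p ^ n := by
    rw [← hA]
    have := Set.ncard_inter_add_ncard_sdiff_eq_ncard (A : Set S) (B : Set S) (Set.toFinite _)
    have h2 : Nat.card A = (A : Set S).ncard := rfl
    rw [h2, ← this, add_comm]
    rfl
  have c2 : ((B : Set S) \ A).ncard + Nat.card (A ⊓ B : Subgroup S) = p ^ n := by
    rw [← hB, inf_comm]
    have := Set.ncard_inter_add_ncard_sdiff_eq_ncard (B : Set S) (A : Set S) (Set.toFinite _)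
    have h2 : Nat.card B = (B : Set S).ncard := rfl
    rw [h2, ← this, add_comm]
    rfl
  have hdisj1 : Disjoint ((A : Set S) \ B) ((B : Set S) \ A) := by
    rw [Set.disjoint_left]
    intro x hx hx'
    exact hx.2 hx'.1
  have hdisj2 : Disjoint (LCMset S) (((A : Set S) \ B) ∪ ((B : Set S) \ A)) := by
    rw [Set.disjoint_left]
    rintro x hx (h | h)
    · exact hbad1 x h.1 h.2 hx
    · exact hbad2 x h.1 h.2 hx
  have c3 : (LCMset S).ncard + (((A : Set S) \ B).ncard + ((B : Set S) \ A).ncard) ≤ p ^ (n + 1) := by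
    rw [← Set.ncard_union_eq hdisj1 (Set.toFinite _) (Set.toFinite _),
      ← Set.ncard_union_eq hdisj2 (Set.toFinite _) (Set.toFinite _), ← hm]
    exact Set.ncard_le_card _
  have c4 : Nat.card (LCMset S) = (LCMset S).ncard := rfl
  rw [c4, hm]
  obtain ⟨q, hq⟩ : ∃ q, p = q + 1 := ⟨p - 1, by have := hp.out.pos; omega⟩
  set L := (LCMset S).ncard
  set D := Nat.card (A ⊓ B : Subgroup S)
  set X := ((A : Set S) \ B).ncard
  set Y := ((B : Set S) \ A).ncard
  have hp1 : p - 1 = q := by omega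
  rw [hp1]
  have hpn : p ^ (n + 1) = p * p ^ n := pow_succ' p n
  rw [hpn] at c3 ⊢
  set P := p ^ n
  have e1 : 2 * q * P ≤ p * (X + Y) := by
    have hX : X = P - D := by omega
    have hY : Y = P - D := by omega
    have hDP : D ≤ P := by omega
    zify [hDP] at hX hY hInt ⊢
    rw [hX, hY]
    have hq' : (p : ℤ) = q + 1 := by exact_mod_cast hq
    rw [hq'] at hInt ⊢
    nlinarith
  have e2 : p ^ 2 * L + 2 * q * (p * P) = p * (p * L + 2 * q * P) := by ring
  have e3 : p * (p * L + 2 * q * P) ≤ p * (p * L + p * (X + Y)) :=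
    Nat.mul_le_mul_left _ (by omega)
  have e4 : p * (p * L + p * (X + Y)) = p ^ 2 * (L + (X + Y)) := by ring
  calc p ^ 2 * L + 2 * q * (p * P) = p * (p * L + 2 * q * P) := e2
    _ ≤ p * (p * L + p * (X + Y)) := e3
    _ = p ^ 2 * (L + (X + Y)) := e4
    _ ≤ p ^ 2 * (p * P) := Nat.mul_le_mul_left _ c3

end

theorem ratio_congr {G H : Type} [Group G] [Group H] (e : G ≃* H) : ratio G = ratio H := by
  unfold ratio
  have h1 : Nat.card (LCMset G) = Nat.card (LCMset H) := by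
    refine Nat.card_congr (e.toEquiv.subtypeEquiv ?_)
    intro x
    change (∀ n : ℕ, 0 < n → ∀ y : G, _) ↔ (∀ n : ℕ, 0 < n → ∀ y : H, _)
    constructor
    · intro h n hn y
      obtain ⟨z, rfl⟩ := e.surjective y
      have := h n hn z
      have e1 : orderOf (e x ^ n * e z) = orderOf (x ^ n * z) := by
        rw [← map_pow, ← map_mul]; exact e.orderOf_eq _
      have e2 : orderOf (e x ^ n) = orderOf (x ^ n) := by
        rw [← map_pow]; exact e.orderOf_eq _
      have e3 : orderOf (e z) = orderOf z := e.orderOf_eq _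
      change orderOf (e x ^ n * e z) ∣ Nat.lcm (orderOf (e x ^ n)) (orderOf (e z))
      rw [e1, e2, e3]
      exact this
    · intro h n hn y
      have := h n hn (e y)
      have e1 : orderOf (e x ^ n * e y) = orderOf (x ^ n * y) := by
        rw [← map_pow, ← map_mul]; exact e.orderOf_eq _
      have e2 : orderOf (e x ^ n) = orderOf (x ^ n) := by
        rw [← map_pow]; exact e.orderOf_eq _
      have e3 : orderOf (e y) = orderOf y := e.orderOf_eq _
      change orderOf (e x ^ n * e y) ∣ Nat.lcm (orderOf (e x ^ n)) (orderOf (e y)) at this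
      rw [e1, e2, e3] at this
      exact this
  rw [h1, Nat.card_congr e.toEquiv]

/-- For every prime `p` the constant `c = 1 - 2(p-1)/p²` lies in `(0,1)`, and every finite
`p`-group `G` with `lcm*(G) > c` is an LCM-group. -/
theorem result : ∀ p : ℕ, p.Prime →
    (0 < (1 - 2 * (p - 1) / p ^ 2 : ℝ) ∧ (1 - 2 * (p - 1) / p ^ 2 : ℝ) < 1) ∧
    ∀ (G : Type) [Group G] [Finite G], IsPGroup p G →
      (1 - 2 * (p - 1) / p ^ 2 : ℝ) < lcmStar G → IsLCM G := by
  intro p hp
  have hp1 : (1 : ℝ) < p := by exact_mod_cast hp.one_lt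
  have hp2 : (0 : ℝ) < (p : ℝ) ^ 2 := by positivity
  refine ⟨⟨?_, ?_⟩, ?_⟩
  · rw [sub_pos, div_lt_one hp2]
    nlinarith
  · rw [sub_lt_self_iff]
    apply div_pos _ hp2
    linarith
  · intro G _ _ hG hc
    have : Fact p.Prime := ⟨hp⟩
    by_contra hnot
    -- bad subgroups
    let Bad : Set (Subgroup G) := {H | ∃ k : ℕ, ∃ a ∈ H, ∃ b ∈ H, a ^ (p ^ k) = 1 ∧
      b ^ (p ^ k) = 1 ∧ (a * b) ^ (p ^ k) ≠ 1}
    have hne : Bad.Nonempty := by
      by_contra hcon
      rw [Set.not_nonempty_iff_eq_empty] at hcon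
      apply hnot
      apply isLCM_of_closed hG
      intro k a b ha hb
      by_contra hab
      have : (⊤ : Subgroup G) ∈ Bad := ⟨k, a, trivial, b, trivial, ha, hb, hab⟩
      rw [hcon] at this
      exact this
    obtain ⟨H, hH, hHmin⟩ := WellFounded.has_min
      (wellFounded_lt : WellFounded ((· < ·) : Subgroup G → Subgroup G → Prop)) Bad hne
    obtain ⟨k, a, haH, b, hbH, ha, hb, hab⟩ := hH
    have hmin : ∀ M : Subgroup H, M ≠ ⊤ → ∀ k : ℕ, ∀ a ∈ M, ∀ b ∈ M, a ^ (p ^ k) = 1 →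
        b ^ (p ^ k) = 1 → (a * b) ^ (p ^ k) = 1 := by
      intro M hM k x hx y hy hxk hyk
      by_contra hxy
      have hlt : M.map H.subtype < H := by
        refine lt_of_le_of_ne (Subgroup.map_subtype_le M) ?_
        intro h
        apply hM
        rw [eq_top_iff]
        intro z _
        have : (z : G) ∈ M.map H.subtype := by rw [h]; exact z.2
        obtain ⟨z', hz', hzz⟩ := this
        have : z' = z := Subtype.ext hzz
        rwa [← this]
      refine hHmin (M.map H.subtype) ?_ hlt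
      refine ⟨k, x, ⟨x, hx, rfl⟩, y, ⟨y, hy, rfl⟩, ?_, ?_, ?_⟩
      · exact_mod_cast congrArg Subtype.val hxk
      · exact_mod_cast congrArg Subtype.val hyk
      · intro h
        apply hxy
        apply Subtype.ext
        exact_mod_cast h
    have hmain := main (p := p) (S := H) (hG.to_subgroup H) hmin
      (k := k) (a := ⟨a, haH⟩) (b := ⟨b, hbH⟩) (Subtype.ext ha)
      (Subtype.ext hb) (fun h => hab (congrArg Subtype.val h))
    have hratio : ratio H ≤ 1 - 2 * (p - 1) / p ^ 2 := by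
      unfold ratio
      have hHpos : (0 : ℝ) < Nat.card H := by exact_mod_cast Nat.card_pos
      rw [div_le_iff₀ hHpos]
      have h1 : (p : ℝ) ^ 2 * Nat.card (LCMset H) + 2 * (p - 1) * Nat.card H ≤
          p ^ 2 * Nat.card H := by
        have h2 : ((p - 1 : ℕ) : ℝ) = (p : ℝ) - 1 := by
          rw [Nat.cast_sub hp.one_le]; simp
        rw [← h2]
        exact_mod_cast hmain
      have h3 : (1 - 2 * ((p : ℝ) - 1) / p ^ 2) * Nat.card H =
          (p ^ 2 * Nat.card H - 2 * (p - 1) * Nat.card H) / p ^ 2 := by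
        field_simp
      rw [h3, le_div_iff₀ hp2]
      linarith
    have hstar : lcmStar G ≤ ratio H := by
      unfold lcmStar
      apply csInf_le
      · refine ⟨0, ?_⟩
        rintro r ⟨H', K', _, rfl⟩
        unfold ratio
        positivity
      · exact ⟨H, ⊥, inferInstance, ratio_congr (QuotientGroup.quotientBot (G := H)).symm⟩
    linarith

end Pool.Agent.Results.MP_391eb1_al.SectionRatio
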